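import Pool.Agent.X195.GH5

/-!
For every `d ≥ 2` the homeomorphisms `f` of the cube `[0,1]^d` whose graph is a countable union of
sets of finite `d`-dimensional Hausdorff measure form a meagre set.

Outline. Fix a coordinate of the target (with a sign) and look at the lines parallel to the first
axis. By a small perturbation `f ∘ ψ`, with `ψ` built from two fast oscillations, one can achieve
that all levels outside a set of small measure which are crossed on a segment are crossed twice on
disjoint subsegments; a Baire category argument and a nested interval argument show that for the
generic `f` almost all crossed levels have uncountable level sets on the line. On the other hand,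
if the graph were a countable union of sets of finite measure, then by Eilenberg's inequality
almost all of these level sets would be countable.
-/

namespace Pool.Agent.Results.MP_c4f89b_an.GenericGraphNotSigmaFinite

open Pool.Agent.X195.GH

theorem result (d : ℕ) (hd : 2 ≤ d) : IsMeagre {f : Homeo d | SigmaFiniteGraph f} := by
  obtain ⟨k, rfl⟩ := Nat.exists_eq_add_of_le' hd
  exact generic_core k

end Pool.Agent.Results.MP_c4f89b_an.GenericGraphNotSigmaFinite
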